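import Pool.Agent.R867.D.Emb
import Pool.Agent.R867.J.Tors4

/-! Unirationality over all extensions of the base field over which there is a general point. -/

set_option autoImplicit false

namespace Pool.Agent.R867.D

open MvPolynomial IntermediateField Pool.Agent.R867.Mov Pool.Agent.R867.J

universe u v

section

variable {k : Type u} [Field k] {N n : ℕ}

/-- common denominators for finitely many rational functions -/
theorem common_den {E : Type u} [Field E] (z : Fin N → Rt n E) :
    ∃ (A : Fin N → MvPolynomial (Fin n) E) (D : MvPolynomial (Fin n) E), D ≠ 0 ∧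
      ∀ i, z i * algebraMap (MvPolynomial (Fin n) E) (Rt n E) D =
        algebraMap (MvPolynomial (Fin n) E) (Rt n E) (A i) := by
  classical
  have h1 : ∀ i, ∃ P D : MvPolynomial (Fin n) E, D ≠ 0 ∧
      z i * algebraMap (MvPolynomial (Fin n) E) (Rt n E) D =
        algebraMap (MvPolynomial (Fin n) E) (Rt n E) P := by
    intro i
    obtain ⟨p, q, hq, hz⟩ := IsFractionRing.div_surjective (A := MvPolynomial (Fin n) E) (z i)
    have hq' := nonZeroDivisors.ne_zero hq
    refine ⟨p, q, hq', ?_⟩
    rw [← hz, div_mul_cancel₀]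
    rw [Ne, map_eq_zero_iff _ (rt_inj E n)]
    exact hq'
  choose P D hD hP using h1
  refine ⟨fun i => P i * ∏ j ∈ Finset.univ.erase i, D j, ∏ j, D j,
    Finset.prod_ne_zero_iff.mpr fun j _ => hD j, fun i => ?_⟩
  rw [← Finset.mul_prod_erase Finset.univ D (Finset.mem_univ i), map_mul, map_mul, ← hP]
  ring

theorem clearR {E : Type u} [Field E] [Algebra k E] {z : Fin N → Rt n E}
    {A : Fin N → MvPolynomial (Fin n) E} {D : MvPolynomial (Fin n) E}
    (hz : ∀ i, z i * algebraMap (MvPolynomial (Fin n) E) (Rt n E) D =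
      algebraMap (MvPolynomial (Fin n) E) (Rt n E) (A i)) (G : MvPolynomial (Fin N) k) :
    ∃ (G' : MvPolynomial (Fin n) E) (e : ℕ),
      aeval z G * algebraMap (MvPolynomial (Fin n) E) (Rt n E) D ^ e =
        algebraMap (MvPolynomial (Fin n) E) (Rt n E) G' ∧
      ∀ (t : Fin n → E) (p : Fin N → E), (∀ i, p i * eval t D = eval t (A i)) →
        aeval p G * eval t D ^ e = eval t G' := by
  induction G using MvPolynomial.induction_on with
  | C c =>
    refine ⟨C (algebraMap k E c), 0, ?_, fun s p _ => ?_⟩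
    · rw [aeval_C, pow_zero, mul_one, IsScalarTower.algebraMap_apply k E (Rt n E),
        IsScalarTower.algebraMap_apply E (MvPolynomial (Fin n) E) (Rt n E)]
      rfl
    · rw [aeval_C, pow_zero, mul_one, eval_C]
  | add p q hp hq =>
    obtain ⟨Q₁, e₁, h₁, h₁'⟩ := hp
    obtain ⟨Q₂, e₂, h₂, h₂'⟩ := hq
    refine ⟨Q₁ * D ^ e₂ + Q₂ * D ^ e₁, e₁ + e₂, ?_, fun s p hs => ?_⟩
    · rw [map_add, map_add, map_mul, map_mul, map_pow, map_pow, ← h₁, ← h₂]
      ring
    · rw [map_add, map_add, map_mul, map_mul, map_pow, map_pow, ← h₁' s p hs, ← h₂' s p hs]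
      ring
  | mul_X p i hp =>
    obtain ⟨Q, e, h, h'⟩ := hp
    refine ⟨Q * A i, e + 1, ?_, fun s p hs => ?_⟩
    · rw [map_mul, map_mul, ← h, aeval_X, ← hz]
      ring
    · rw [map_mul, aeval_X, map_mul, ← h' s p hs, ← hs]
      ring

/-- a point over a rational function field which is generic gives many points -/
theorem dense_of_rt {K : Type u} [Field K] [Algebra k K] {E : Type u} [Field E] [Infinite E]
    [Algebra k E] {x : Fin N → K} {z : Fin N → Rt n E}
    (hz : ∀ Q : MvPolynomial (Fin N) k, aeval x Q = 0 → aeval z Q = 0)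
    {G : MvPolynomial (Fin N) k} (hG : aeval z G ≠ 0) :
    ∃ e : Fin N → E, (∀ Q : MvPolynomial (Fin N) k, aeval x Q = 0 → aeval e Q = 0) ∧
      aeval e G ≠ 0 := by
  obtain ⟨A, D, hD, hA⟩ := common_den z
  obtain ⟨G', m, hG', hG''⟩ := clearR (k := k) hA G
  have hDr : algebraMap (MvPolynomial (Fin n) E) (Rt n E) D ≠ 0 := by
    rw [Ne, map_eq_zero_iff _ (rt_inj E n)]
    exact hD
  have hG'0 : G' ≠ 0 := by
    rintro rfl
    rw [map_zero] at hG'
    exact mul_ne_zero hG (pow_ne_zero _ hDr) hG'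
  obtain ⟨t, ht⟩ : ∃ t : Fin n → E, eval t (G' * D) ≠ 0 := by
    by_contra hcon
    push Not at hcon
    exact mul_ne_zero hG'0 hD (MvPolynomial.funext fun t => by rw [hcon t, map_zero])
  rw [map_mul] at ht
  have htD : eval t D ≠ 0 := right_ne_zero_of_mul ht
  obtain ⟨e, he⟩ : ∃ e : Fin N → E, ∀ i, e i * eval t D = eval t (A i) :=
    ⟨fun i => eval t (A i) / eval t D, fun i => div_mul_cancel₀ _ htD⟩
  refine ⟨e, fun Q hQ => ?_, fun h0 => ?_⟩
  · obtain ⟨Q', m', hQ', hQ''⟩ := clearR (k := k) hA Q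
    rw [hz Q hQ, zero_mul] at hQ'
    have h1 : Q' = 0 := by
      apply rt_inj E n
      rw [map_zero]
      exact hQ'.symm
    have h2 := hQ'' t e he
    rw [h1, map_zero] at h2
    exact (mul_eq_zero.mp h2).resolve_right (pow_ne_zero _ htD)
  · have h2 := hG'' t e he
    rw [h0, zero_mul] at h2
    exact left_ne_zero_of_mul ht h2.symm

/-- a dense open subset has a point over the algebraic closure -/
theorem exists_pt_closure {K : Type u} [Field K] [Algebra k K] (x : Fin N → K)
    {g : MvPolynomial (Fin N) k} (hg : aeval x g ≠ 0) : ∃ c : Fin N → AlgebraicClosure k,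
      (∀ Q : MvPolynomial (Fin N) k, aeval x Q = 0 → aeval c Q = 0) ∧ aeval c g ≠ 0 := by
  let I : Ideal (MvPolynomial (Fin N) k) := RingHom.ker (aeval x : _ →ₐ[k] K)
  have hI : I.IsPrime := RingHom.ker_isPrime _
  have h1 : g ∉ vanishingIdeal k (zeroLocus (AlgebraicClosure k) I) := by
    rw [MvPolynomial.IsPrime.vanishingIdeal_zeroLocus I]
    exact fun h => hg (RingHom.mem_ker.mp h)
  rw [mem_vanishingIdeal_iff] at h1
  push Not at h1
  obtain ⟨c, hc, hcG⟩ := h1
  exact ⟨c, fun P hP => (mem_zeroLocus_iff.mp hc) P (RingHom.mem_ker.mpr hP), hcG⟩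

/-- If all nonconstant functions are movable, then the variety is unirational over all extensions
of the base field over which there is a point in a suitable dense open subset. -/
theorem dens_main {K : Type u} [Field K] [Algebra k K] {x : Fin N → K}
    (hx : adjoin k (Set.range x) = ⊤)
    (hmov : ∀ a : K, a ∉ Set.range (algebraMap k K) → Movable k a) :
    ∃ g : MvPolynomial (Fin N) k, aeval x g ≠ 0 ∧
      ∀ {E : Type u} [Field E] [Algebra k E] (c : Fin N → E),
        (∀ Q : MvPolynomial (Fin N) k, aeval x Q = 0 → aeval c Q = 0) → aeval c g ≠ 0 →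
        ∃ (n d : ℕ) (P : Fin N → Rt n E) (u : Fin d → Fin N), Algebra.trdeg k K = d ∧
          (∀ Q : MvPolynomial (Fin N) k, aeval x Q = 0 ↔ aeval P Q = 0) ∧
          AlgebraicIndependent E (P ∘ u) := by
  classical
  obtain ⟨n, φ, hφ⟩ := core (bound hx) hmov
  obtain ⟨J, -, hJ, hJa⟩ := maxIndep (k := k) x ∅ (by
    rw [AlgebraicIndepOn, algebraicIndependent_empty_type_iff]
    exact (algebraMap k K).injective)
  have hKa : Algebra.IsAlgebraic (Algebra.adjoin k (x '' J)) K := isAlg_of_adjoin _ x hx hJa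
  have hJ' : AlgebraicIndependent k (fun i : J => x i) := hJ
  have h1 : AlgebraicIndependent K (fun i : J => φ (x i)) := indep_of_lin hφ hJ'
  obtain ⟨g, hg, hspec⟩ := specE hx φ J h1
  refine ⟨g, hg, fun {E} _ _ c hc hcg => ?_⟩
  obtain ⟨yc, hyc, hind⟩ := hspec c hc hcg
  have hzero : ∀ Q : MvPolynomial (Fin N) k, aeval x Q = 0 → aeval yc Q = 0 := by
    intro Q hQ
    have h1 : aeval (fam x (φ ∘ x)) (rename (Sum.inr ∘ Sum.inl) Q :
        MvPolynomial (Fin N ⊕ (Fin N ⊕ Fin n)) k) = 0 := by
      rw [aeval_rename]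
      have h3 := congrArg φ hQ
      rwa [map_zero, MvPolynomial.comp_aeval_apply] at h3
    have h2 := hyc _ h1
    rw [aeval_rename] at h2
    exact h2
  have hindk : AlgebraicIndependent k (fun i : J => yc i) :=
    hind.restrictScalars (R := k) (algebraMap k E).injective
  obtain ⟨e⟩ : Nonempty (J ≃ Fin (Fintype.card J)) := ⟨Fintype.equivFin J⟩
  refine ⟨n, Fintype.card J, yc, fun i => (e.symm i : Fin N), ?_, fun Q => ⟨hzero Q,
    inj_of_indep hKa hzero hindk Q⟩, hind.comp e.symm e.symm.injective⟩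
  have hb : IsTranscendenceBasis k (fun i : J => x i) := by
    refine hJ'.isTranscendenceBasis_iff_isAlgebraic.mpr ?_
    have h2 : x '' J = Set.range (fun i : J => x i) := by
      ext; simp
    rw [← h2]
    exact hKa
  have h3 := hb.lift_cardinalMk_eq_trdeg
  simpa using h3.symm

end

end Pool.Agent.R867.D
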