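import Pool.Agent.R867.D.Ind

/-! Varieties whose immovable functions form a field of transcendence degree at most one. -/

set_option autoImplicit false

namespace Pool.Agent.R867.D

open MvPolynomial IntermediateField Pool.Agent.R867.Mov

universe u v

section

variable {k : Type u} {K : Type u} [Field k] [Field K] [Algebra k K] {N : ℕ}

/-- a new coordinate which is a quotient of polynomials -/
theorem clearN (P₀ Q₀ : MvPolynomial (Fin N) k) (R : MvPolynomial (Fin (N + 1)) k) :
    ∃ (R' : MvPolynomial (Fin N) k) (e : ℕ), ∀ {E : Type u} [Field E] [Algebra k E]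
      (c : Fin N → E) (η : E), η * aeval c Q₀ = aeval c P₀ →
        aeval (Fin.cons η c : Fin (N + 1) → E) R * aeval c Q₀ ^ e = aeval c R' := by
  induction R using MvPolynomial.induction_on with
  | C a =>
    refine ⟨C a, 0, fun c η _ => ?_⟩
    rw [aeval_C, aeval_C, pow_zero, mul_one]
  | add p q hp hq =>
    obtain ⟨Q₁, e₁, h₁⟩ := hp
    obtain ⟨Q₂, e₂, h₂⟩ := hq
    refine ⟨Q₁ * Q₀ ^ e₂ + Q₂ * Q₀ ^ e₁, e₁ + e₂, fun c η hc => ?_⟩
    rw [map_add, map_add, map_mul, map_mul, map_pow, map_pow, ← h₁ c η hc, ← h₂ c η hc]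
    ring
  | mul_X p i hp =>
    obtain ⟨Q, e, h⟩ := hp
    refine Fin.cases ?_ (fun i => ?_) i
    · refine ⟨Q * P₀, e + 1, fun c η hc => ?_⟩
      rw [map_mul, map_mul, ← h c η hc, ← hc, aeval_X, Fin.cons_zero]
      ring
    · refine ⟨Q * X i, e, fun c η hc => ?_⟩
      rw [map_mul, map_mul, ← h c η hc, aeval_X, aeval_X, Fin.cons_succ]
      ring

theorem ext_pt {x : Fin N → K} {y : K} {P₀ Q₀ : MvPolynomial (Fin N) k}
    (hy : y * aeval x Q₀ = aeval x P₀) {E : Type u} [Field E] [Algebra k E] {c : Fin N → E} {η : E}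
    (hη : η * aeval c Q₀ = aeval c P₀) (hQc : aeval c Q₀ ≠ 0)
    (hc : ∀ Q : MvPolynomial (Fin N) k, aeval x Q = 0 → aeval c Q = 0)
    (R : MvPolynomial (Fin (N + 1)) k) (hR : aeval (Fin.cons y x : Fin (N + 1) → K) R = 0) :
    aeval (Fin.cons η c : Fin (N + 1) → E) R = 0 := by
  obtain ⟨R', e, h⟩ := clearN P₀ Q₀ R
  have h1 := h x y hy
  rw [hR, zero_mul] at h1
  have h2 := h c η hη
  rw [hc _ h1.symm] at h2
  exact (mul_eq_zero.mp h2).resolve_right (pow_ne_zero _ hQc)

/-- a specialization which preserves the independence of a transcendence basis is generic -/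
theorem inj_of_indep {x : Fin N → K} {S : Set (Fin N)}
    (hKa : Algebra.IsAlgebraic (Algebra.adjoin k (x '' S)) K) {E : Type u} [Field E] [Algebra k E]
    {c : Fin N → E} (hc : ∀ Q : MvPolynomial (Fin N) k, aeval x Q = 0 → aeval c Q = 0)
    (hind : AlgebraicIndependent k (fun i : S => c i)) (Q : MvPolynomial (Fin N) k)
    (hQ : aeval c Q = 0) : aeval x Q = 0 := by
  by_contra hne
  obtain ⟨t, ht, r, hr, hr'⟩ := (hKa.isAlgebraic (aeval x Q)).exists_nonzero_eq_adjoin_mul
    (mem_nonZeroDivisors_of_ne_zero hne)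
  have hrange : ∀ r : Algebra.adjoin k (x '' S), ∃ R : MvPolynomial S k,
      aeval (fun i : S => x i) R = (r : K) := by
    intro r
    have hxJ : x '' S = Set.range (fun i : S => x i) := by
      ext; simp
    have h3 : (r : K) ∈ Algebra.adjoin k (Set.range (fun i : S => x i)) := by
      rw [← hxJ]
      exact r.2
    rw [Algebra.adjoin_range_eq_range_aeval] at h3
    exact h3
  have htA : ∃ A : MvPolynomial (Fin N) k, aeval x A = t := by
    clear hr'
    induction ht using Algebra.adjoin_induction with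
    | mem z hz =>
      rw [Set.mem_singleton_iff] at hz
      exact ⟨Q, hz.symm⟩
    | algebraMap r =>
      obtain ⟨R, hR⟩ := hrange r
      refine ⟨rename Subtype.val R, ?_⟩
      rw [aeval_rename]
      exact hR
    | add a b _ _ ha hb =>
      obtain ⟨A, hA⟩ := ha
      obtain ⟨B, hB⟩ := hb
      exact ⟨A + B, by rw [map_add, hA, hB]⟩
    | mul a b _ _ ha hb =>
      obtain ⟨A, hA⟩ := ha
      obtain ⟨B, hB⟩ := hb
      exact ⟨A * B, by rw [map_mul, hA, hB]⟩
  obtain ⟨A, hA⟩ := htA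
  obtain ⟨R, hR⟩ := hrange r
  have h3 : aeval x (Q * A - rename Subtype.val R) = 0 := by
    rw [map_sub, map_mul, aeval_rename, hA, hr']
    change _ - aeval (fun i : S => x i) R = 0
    rw [hR]
    exact sub_self _
  have h4 := hc _ h3
  rw [map_sub, map_mul, hQ, zero_mul, zero_sub, neg_eq_zero, aeval_rename] at h4
  have h5 : R = 0 := by
    apply hind
    rw [map_zero]
    exact h4
  apply hr
  apply Subtype.ext
  rw [← hR, h5, map_zero]
  rfl

/-- there are points with coordinates in purely transcendental extensions of `k`, outside of a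
given hypersurface, at which a given nonconstant function is not constant -/
def CurvePts (k : Type u) {K : Type u} [Field k] [Field K] [Algebra k K] {N : ℕ} (x : Fin N → K) :
    Prop :=
  ∀ G A B : MvPolynomial (Fin N) k, aeval x G ≠ 0 → aeval x B ≠ 0 →
    Transcendental k (aeval x A / aeval x B) →
    ∃ (E : Type u) (_ : Field E) (_ : Algebra k E) (c : Fin N → E), PT k E ∧
      (∀ Q : MvPolynomial (Fin N) k, aeval x Q = 0 → aeval c Q = 0) ∧ aeval c G ≠ 0 ∧
      aeval c B ≠ 0 ∧ Transcendental k (aeval c A / aeval c B)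

theorem rel_aux {x : Fin N → K} (hx : adjoin k (Set.range x) = ⊤) (hC : CurvePts k x) {y : K}
    (hy : Imm k y) (hyt : Transcendental k y) (hall : ∀ b, Imm k b → b ∈ cl k {y}) :
    ∃ n, Nonempty (K →ₐ[k] Rt n k) := by
  classical
  obtain ⟨n, φ, hφ⟩ := core_imm (bound hx)
  obtain ⟨y', hy'⟩ := hy n φ
  obtain ⟨X', hX'⟩ : ∃ X' : Fin (N + 1) → K, X' = Fin.cons y x := ⟨_, rfl⟩
  have hX0 : X' 0 = y := by rw [hX']; rfl
  have hXs : ∀ i : Fin N, X' i.succ = x i := fun i => by rw [hX']; rfl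
  have hXtop : adjoin k (Set.range X') = ⊤ := by
    rw [eq_top_iff, ← hx]
    apply adjoin.mono
    rintro _ ⟨i, rfl⟩
    exact ⟨i.succ, hXs i⟩
  -- a transcendence basis containing `y`
  obtain ⟨S, hS0, hS, hSa⟩ := maxIndep (k := k) X' {0} (by
    have h1 : AlgebraicIndependent k (fun i : ({0} : Set (Fin (N + 1))) => X' i) := by
      rw [algebraicIndependent_unique_type_iff]
      change Transcendental k (X' 0)
      rw [hX0]
      exact hyt
    exact h1)
  have h0S : (0 : Fin (N + 1)) ∈ S := hS0 rfl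
  have hKa : Algebra.IsAlgebraic (Algebra.adjoin k (X' '' S)) K := isAlg_of_adjoin _ X' hXtop hSa
  obtain ⟨J, hJ⟩ : ∃ J : Set (Fin (N + 1)), J = {i | i ∈ S ∧ i ≠ 0} := ⟨_, rfl⟩
  have hJmem : ∀ i, i ∈ J ↔ i ∈ S ∧ i ≠ 0 := fun i => by
    rw [hJ]
    rfl
  have hJS : ∀ i : J, (i : Fin (N + 1)) ∈ S := fun i => ((hJmem i).mp i.2).1
  have hJ0 : ∀ i : J, (i : Fin (N + 1)) ≠ 0 := fun i => ((hJmem i).mp i.2).2
  have hu : AlgebraicIndependent k (fun o : Option J => o.elim y (fun i : J => X' i)) := by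
    have hS' : AlgebraicIndependent k (fun i : S => X' i) := hS
    have h1 := hS'.comp (fun o : Option J => o.elim (⟨0, h0S⟩ : S) (fun i => ⟨i, hJS i⟩)) (by
      rintro (_ | a) (_ | b) hab
      · rfl
      · exact absurd (congrArg (fun z : S => (z : Fin (N + 1))) hab).symm (hJ0 b)
      · exact absurd (congrArg (fun z : S => (z : Fin (N + 1))) hab) (hJ0 a)
      · have h2 : (a : Fin (N + 1)) = b := congrArg (fun z : S => (z : Fin (N + 1))) hab
        rw [Subtype.ext h2])
    have h2 : ((fun i : S => X' i) ∘ fun o : Option J => o.elim (⟨0, h0S⟩ : S)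
        (fun i => ⟨i, hJS i⟩)) = fun o : Option J => o.elim y (fun i : J => X' i) := by
      funext o
      rcases o with _ | a
      · exact hX0
      · rfl
    rwa [h2] at h1
  have hJK := indK hφ hy hyt hall hy' hu
  obtain ⟨g, hg, hspec⟩ := specE hXtop φ J hJK
  obtain ⟨P₀, Q₀, hQ₀, hyP⟩ := exists_frac hx y
  obtain ⟨A, B, hB, hAB⟩ := exists_frac hx y'
  obtain ⟨g', e, hg'⟩ := clearN P₀ Q₀ g
  have hg'x : aeval x g' ≠ 0 := by
    rw [← hg' x y hyP, ← hX']
    exact mul_ne_zero hg (pow_ne_zero _ hQ₀)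
  have hy't : Transcendental k (aeval x A / aeval x B) := by
    rw [← hAB, mul_div_cancel_right₀ _ hB]
    intro h
    apply hyt
    have h1 : IsAlgebraic k (algebraMap K (Rt n K) y') := h.algebraMap
    rw [hy'] at h1
    exact (isAlgebraic_algHom_iff φ φ.injective).mp h1
  obtain ⟨E, _, _, c, hE, hc, hcG, hcB, hct⟩ := hC (g' * Q₀) A B (by
    rw [map_mul]; exact mul_ne_zero hg'x hQ₀) hB hy't
  rw [map_mul] at hcG
  have hcQ : aeval c Q₀ ≠ 0 := right_ne_zero_of_mul hcG
  obtain ⟨η, hη⟩ : ∃ η : E, η * aeval c Q₀ = aeval c P₀ :=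
    ⟨aeval c P₀ / aeval c Q₀, div_mul_cancel₀ _ hcQ⟩
  obtain ⟨C', hC'⟩ : ∃ C' : Fin (N + 1) → E, C' = Fin.cons η c := ⟨_, rfl⟩
  have hrel : ∀ Q : MvPolynomial (Fin (N + 1)) k, aeval X' Q = 0 → aeval C' Q = 0 := by
    intro Q hQ
    rw [hC']
    rw [hX'] at hQ
    exact ext_pt hyP hη hcQ hc Q hQ
  have hgC : aeval C' g ≠ 0 := by
    intro h
    have h1 := hg' c η hη
    rw [← hC', h, zero_mul] at h1
    exact left_ne_zero_of_mul hcG h1.symm
  obtain ⟨yc, hyc, hycJ⟩ := hspec C' hrel hgC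
  -- the point `yc`
  have hzero : ∀ Q : MvPolynomial (Fin (N + 1)) k, aeval X' Q = 0 → aeval yc Q = 0 := by
    intro Q hQ
    have h1 : aeval (fam X' (φ ∘ X')) (rename (Sum.inr ∘ Sum.inl) Q :
        MvPolynomial (Fin (N + 1) ⊕ (Fin (N + 1) ⊕ Fin n)) k) = 0 := by
      rw [aeval_rename]
      have h3 := congrArg φ hQ
      rwa [map_zero, MvPolynomial.comp_aeval_apply] at h3
    have h2 := hyc _ h1
    rw [aeval_rename] at h2
    exact h2
  have hyc0 : yc 0 * algebraMap E (Rt n E) (aeval c B) = algebraMap E (Rt n E) (aeval c A) := by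
    have h1 : aeval (fam X' (φ ∘ X')) (X (Sum.inr (Sum.inl 0)) *
        rename (Sum.inl ∘ Fin.succ) B - rename (Sum.inl ∘ Fin.succ) A :
        MvPolynomial (Fin (N + 1) ⊕ (Fin (N + 1) ⊕ Fin n)) k) = 0 := by
      rw [map_sub, map_mul, aeval_rename, aeval_rename, aeval_X]
      have h2 : fam X' (φ ∘ X') ∘ (Sum.inl ∘ Fin.succ) = algebraMap K (Rt n K) ∘ x := by
        funext i
        change algebraMap K (Rt n K) (X' i.succ) = _
        rw [hXs]
        rfl
      rw [h2]
      change φ (X' 0) * _ - _ = 0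
      rw [hX0, ← hy', MvPolynomial.aeval_algebraMap_apply, MvPolynomial.aeval_algebraMap_apply,
        ← map_mul, hAB, sub_self]
    have h2 := hyc _ h1
    rw [map_sub, map_mul, aeval_rename, aeval_rename, aeval_X] at h2
    have h3 : fam C' yc ∘ (Sum.inl ∘ Fin.succ) = algebraMap E (Rt n E) ∘ c := by
      funext i
      change algebraMap E (Rt n E) (C' i.succ) = _
      rw [hC']
      rfl
    rw [h3] at h2
    change yc 0 * _ - _ = 0 at h2
    rw [MvPolynomial.aeval_algebraMap_apply, MvPolynomial.aeval_algebraMap_apply] at h2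
    exact sub_eq_zero.mp h2
  have hyc0' : yc 0 = algebraMap E (Rt n E) (aeval c A / aeval c B) := by
    rw [map_div₀, eq_div_iff (by rwa [Ne, map_eq_zero])]
    exact hyc0
  have hSc : AlgebraicIndependent k (fun i : S => yc i) := by
    have h1 : AlgebraicIndependent k (fun _ : Unit => aeval c A / aeval c B) := by
      rw [algebraicIndependent_unique_type_iff]
      exact hct
    have h2 := h1.sumElim_comp hycJ
    have h3 := h2.comp (fun i : S => if h : (i : Fin (N + 1)) = 0 then (Sum.inr () : J ⊕ Unit) else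
      Sum.inl ⟨i, (hJmem _).mpr ⟨i.2, h⟩⟩) (by
        intro a b hab
        by_cases ha : (a : Fin (N + 1)) = 0 <;> by_cases hb : (b : Fin (N + 1)) = 0
        · exact Subtype.ext (ha.trans hb.symm)
        · simp [ha, hb] at hab
        · simp [ha, hb] at hab
        · simp only [ha, hb, dite_false] at hab
          have h4 := congrArg Subtype.val (Sum.inl_injective hab)
          exact Subtype.ext h4)
    have h4 : (Sum.elim (fun i : J => yc i) (algebraMap E (Rt n E) ∘ fun _ : Unit =>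
        aeval c A / aeval c B) ∘ fun i : S => if h : (i : Fin (N + 1)) = 0 then
          (Sum.inr () : J ⊕ Unit) else Sum.inl ⟨i, (hJmem _).mpr ⟨i.2, h⟩⟩) =
        fun i : S => yc i := by
      funext i
      by_cases hi : (i : Fin (N + 1)) = 0
      · simp only [Function.comp_apply, hi, dite_true, Sum.elim_inr]
        exact hyc0'.symm
      · simp only [Function.comp_apply, hi, dite_false, Sum.elim_inl]
    rwa [h4] at h3
  obtain ⟨ψ⟩ := embed hXtop (c := yc) hzero (inj_of_indep hKa hzero hSc)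
  obtain ⟨m, ⟨e⟩⟩ := (hE.trans (PT_rt E n)).equiv
  exact ⟨m, ⟨e.toAlgHom.comp ψ⟩⟩

end

end Pool.Agent.R867.D
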