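import Pool.Agent.R867.Mov.Main

/-! Specialization of a family at a point over an extension of the base field. -/

set_option autoImplicit false

namespace Pool.Agent.R867.D

open MvPolynomial IntermediateField Pool.Agent.R867.Mov

universe u v w

section

variable {k K E : Type u} [Field k] [Field K] [Algebra k K] [Field E] [Algebra k E] {N n : ℕ}

/-- the evaluation at a point with coordinates in `E` -/
noncomputable def evc (c : Fin N → E) : MvPolynomial (Fin N) k →+* E :=
  ((aeval c : MvPolynomial (Fin N) k →ₐ[k] E) : MvPolynomial (Fin N) k →+* E)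

theorem evc_apply (c : Fin N → E) (P : MvPolynomial (Fin N) k) : evc c P = aeval c P := rfl

/-- polynomials in the parameters with coefficients in the coordinate ring, evaluated at a point
with coordinates in `E` -/
noncomputable def evE (c : Fin N → E) (n : ℕ) :
    MvPolynomial (Fin n) (MvPolynomial (Fin N) k) →+* Rt n E :=
  (algebraMap (MvPolynomial (Fin n) E) (Rt n E)).comp (MvPolynomial.map (evc c))

theorem evE_apply (c : Fin N → E) (P : MvPolynomial (Fin n) (MvPolynomial (Fin N) k)) :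
    evE c n P = algebraMap (MvPolynomial (Fin n) E) (Rt n E) (MvPolynomial.map (evc c) P) := rfl

theorem evE_C (c : Fin N → E) (a : MvPolynomial (Fin N) k) :
    evE c n (C a) = algebraMap E (Rt n E) (aeval c a) := by
  rw [evE_apply, map_C, IsScalarTower.algebraMap_apply E (MvPolynomial (Fin n) E) (Rt n E)]
  rfl

theorem evE_X (c : Fin N → E) (i : Fin n) :
    evE (k := k) c n (X i) = algebraMap (MvPolynomial (Fin n) E) (Rt n E) (X i) := by
  rw [evE_apply, map_X]

theorem evE_zero {x : Fin N → K} {c : Fin N → E}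
    (hc : ∀ P : MvPolynomial (Fin N) k, aeval x P = 0 → aeval c P = 0)
    {P : MvPolynomial (Fin n) (MvPolynomial (Fin N) k)} (hP : ΦR x n P = 0) : evE c n P = 0 := by
  have h1 : MvPolynomial.map (evx x) P = 0 := by
    rw [ΦR_apply] at hP
    exact (map_eq_zero_iff _ (rt_inj K n)).mp hP
  have h2 : MvPolynomial.map (evc c) P = 0 := by
    ext m
    rw [coeff_map, coeff_zero]
    apply hc
    have h3 := congrArg (coeff m) h1
    rw [coeff_map, coeff_zero] at h3
    exact h3
  rw [evE_apply, h2, map_zero]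

theorem evE_ne_aux {x : Fin N → K} {P : MvPolynomial (Fin n) (MvPolynomial (Fin N) k)}
    (hP : ΦR x n P ≠ 0) : ∃ m, aeval x (coeff m P) ≠ 0 := by
  have h1 : MvPolynomial.map (evx x) P ≠ 0 := by
    intro h
    apply hP
    rw [ΦR_apply, h, map_zero]
  rw [ne_zero_iff] at h1
  obtain ⟨m, hm⟩ := h1
  rw [coeff_map] at hm
  exact ⟨m, hm⟩

theorem evE_ne {P : MvPolynomial (Fin n) (MvPolynomial (Fin N) k)} {m : Fin n →₀ ℕ}
    {c : Fin N → E} (hc : aeval c (coeff m P) ≠ 0) : evE c n P ≠ 0 := by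
  intro h
  apply hc
  have h2 : MvPolynomial.map (evc c) P = 0 := by
    rw [evE_apply] at h
    exact (map_eq_zero_iff _ (rt_inj E n)).mp h
  have h3 := congrArg (coeff m) h2
  rwa [coeff_map, coeff_zero] at h3

end

section Family

variable {k K : Type u} [Field k] [Field K] [Algebra k K] {N n : ℕ}

theorem clearE {x : Fin N → K} {y : Fin N → Rt n K}
    {P : Fin N → MvPolynomial (Fin n) (MvPolynomial (Fin N) k)}
    {D : MvPolynomial (Fin n) (MvPolynomial (Fin N) k)}
    (hy : ∀ i, y i * ΦR x n D = ΦR x n (P i)) (w : MvPolynomial (Fin N ⊕ (Fin N ⊕ Fin n)) k) :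
    ∃ (Q : MvPolynomial (Fin n) (MvPolynomial (Fin N) k)) (e : ℕ),
      aeval (fam x y) w * ΦR x n D ^ e = ΦR x n Q ∧
      ∀ {E : Type u} [Field E] [Algebra k E] (c : Fin N → E) (yc : Fin N → Rt n E),
        (∀ i, yc i * evE c n D = evE c n (P i)) →
        aeval (fam c yc) w * evE c n D ^ e = evE c n Q := by
  induction w using MvPolynomial.induction_on with
  | C a =>
    refine ⟨C (C a), 0, ?_, fun c yc _ => ?_⟩
    · rw [ΦR_C, aeval_C, aeval_C, pow_zero, mul_one, ← IsScalarTower.algebraMap_apply]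
    · rw [evE_C, aeval_C, aeval_C, pow_zero, mul_one, ← IsScalarTower.algebraMap_apply]
  | add p q hp hq =>
    obtain ⟨Q₁, e₁, h₁, h₁'⟩ := hp
    obtain ⟨Q₂, e₂, h₂, h₂'⟩ := hq
    refine ⟨Q₁ * D ^ e₂ + Q₂ * D ^ e₁, e₁ + e₂, ?_, fun c yc hc => ?_⟩
    · rw [map_add, map_add, map_mul, map_mul, map_pow, map_pow, ← h₁, ← h₂]
      ring
    · rw [map_add, map_add, map_mul, map_mul, map_pow, map_pow, ← h₁' c yc hc, ← h₂' c yc hc]
      ring
  | mul_X p i hp =>
    obtain ⟨Q, e, h, h'⟩ := hp
    rcases i with i | i | i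
    · refine ⟨Q * C (X i), e, ?_, fun c yc hc => ?_⟩
      · rw [map_mul, map_mul, ← h, ΦR_C, aeval_X, aeval_X]
        change _ * algebraMap K (Rt n K) (x i) * _ = _
        ring
      · rw [map_mul, map_mul, ← h' c yc hc, evE_C, aeval_X, aeval_X]
        change _ * algebraMap _ (Rt n _) (c i) * _ = _
        ring
    · refine ⟨Q * P i, e + 1, ?_, fun c yc hc => ?_⟩
      · rw [map_mul, map_mul, ← h, ← hy, aeval_X]
        change _ * y i * _ = _
        ring
      · rw [map_mul, map_mul, ← h' c yc hc, ← hc, aeval_X]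
        change _ * yc i * _ = _
        ring
    · refine ⟨Q * X i, e, ?_, fun c yc hc => ?_⟩
      · rw [map_mul, map_mul, ← h, ΦR_X, aeval_X]
        change _ * algebraMap (MvPolynomial (Fin n) K) (Rt n K) (X i) * _ = _
        ring
      · rw [map_mul, map_mul, ← h' c yc hc, evE_X, aeval_X]
        change _ * algebraMap (MvPolynomial (Fin n) _) (Rt n _) (X i) * _ = _
        ring

/-- a good specialization -/
structure GoodE {E : Type u} [Field E] [Algebra k E] (x : Fin N → K)
    (P : Fin N → MvPolynomial (Fin n) (MvPolynomial (Fin N) k))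
    (D : MvPolynomial (Fin n) (MvPolynomial (Fin N) k)) (c : Fin N → E) (yc : Fin N → Rt n E) :
    Prop where
  pt : ∀ Q : MvPolynomial (Fin N) k, aeval x Q = 0 → aeval c Q = 0
  den : evE c n D ≠ 0
  val : ∀ i, yc i * evE c n D = evE c n (P i)

theorem GoodE.zero {E : Type u} [Field E] [Algebra k E] {x : Fin N → K} {y : Fin N → Rt n K}
    {P : Fin N → MvPolynomial (Fin n) (MvPolynomial (Fin N) k)}
    {D : MvPolynomial (Fin n) (MvPolynomial (Fin N) k)}
    (hy : ∀ i, y i * ΦR x n D = ΦR x n (P i)) {c : Fin N → E} {yc : Fin N → Rt n E}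
    (hg : GoodE x P D c yc) {w : MvPolynomial (Fin N ⊕ (Fin N ⊕ Fin n)) k}
    (hw : aeval (fam x y) w = 0) : aeval (fam c yc) w = 0 := by
  obtain ⟨Q, e, h, h'⟩ := clearE hy w
  rw [hw, zero_mul] at h
  have h1 := evE_zero hg.pt h.symm
  have h2 := h' c yc hg.val
  rw [h1] at h2
  exact (mul_eq_zero.mp h2).resolve_right (pow_ne_zero _ hg.den)

theorem exists_neE {x : Fin N → K} {y : Fin N → Rt n K}
    {P : Fin N → MvPolynomial (Fin n) (MvPolynomial (Fin N) k)}
    {D : MvPolynomial (Fin n) (MvPolynomial (Fin N) k)} (hD : ΦR x n D ≠ 0)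
    (hy : ∀ i, y i * ΦR x n D = ΦR x n (P i)) {w : MvPolynomial (Fin N ⊕ (Fin N ⊕ Fin n)) k}
    (hw : aeval (fam x y) w ≠ 0) : ∃ g : MvPolynomial (Fin N) k, aeval x g ≠ 0 ∧
      ∀ {E : Type u} [Field E] [Algebra k E] (c : Fin N → E) (yc : Fin N → Rt n E),
        GoodE x P D c yc → aeval c g ≠ 0 → aeval (fam c yc) w ≠ 0 := by
  obtain ⟨Q, e, h, h'⟩ := clearE hy w
  have h1 : ΦR x n Q ≠ 0 := by
    rw [← h]
    exact mul_ne_zero hw (pow_ne_zero _ hD)
  obtain ⟨m, hm⟩ := evE_ne_aux h1
  refine ⟨coeff m Q, hm, fun c yc hgood hc h0 => ?_⟩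
  have h2 := h' c yc hgood.val
  rw [h0, zero_mul] at h2
  exact evE_ne hc h2.symm

theorem algSpecE {x : Fin N → K} {y : Fin N → Rt n K}
    {P : Fin N → MvPolynomial (Fin n) (MvPolynomial (Fin N) k)}
    {D : MvPolynomial (Fin n) (MvPolynomial (Fin N) k)} (hD : ΦR x n D ≠ 0)
    (hy : ∀ i, y i * ΦR x n D = ΦR x n (P i)) (G : Set (Fin N ⊕ (Fin N ⊕ Fin n)))
    (l : Fin N ⊕ (Fin N ⊕ Fin n))
    (hl : IsAlgebraic (Algebra.adjoin k (fam x y '' G)) (fam x y l)) :
    ∃ g : MvPolynomial (Fin N) k, aeval x g ≠ 0 ∧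
      ∀ {E : Type u} [Field E] [Algebra k E] (c : Fin N → E) (yc : Fin N → Rt n E),
        GoodE x P D c yc → aeval c g ≠ 0 →
        IsAlgebraic (Algebra.adjoin k (fam c yc '' G)) (fam c yc l) := by
  obtain ⟨p, hp0, hp⟩ := hl
  have h1 : ∀ m, ∃ R : MvPolynomial (Fin N ⊕ (Fin N ⊕ Fin n)) k, aeval (fam x y) R = (p.coeff m : Rt n K) ∧
      ∀ {E' : Type u} [Field E'] [Algebra k E'] (F' : Fin N ⊕ (Fin N ⊕ Fin n) → E'),
      aeval F' R ∈ Algebra.adjoin k (F' '' G) :=
    fun m => adjoin_image_eq _ _ (p.coeff m).2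
  choose R hR hR' using h1
  obtain ⟨m₀, hm₀⟩ : ∃ m, p.coeff m ≠ 0 := by
    by_contra h
    push Not at h
    exact hp0 (Polynomial.ext h)
  have hm₀' : aeval (fam x y) (R m₀) ≠ 0 := by
    rw [hR]
    exact fun h => hm₀ (Subtype.ext h)
  obtain ⟨g, hg, hg'⟩ := exists_neE hD hy hm₀'
  refine ⟨g, hg, fun c yc hgood hc => ?_⟩
  have hz : aeval (fam x y) (∑ m ∈ Finset.range (p.natDegree + 1), R m * X l ^ m) = 0 := by
    rw [← hp, Polynomial.aeval_eq_sum_range, map_sum]
    refine Finset.sum_congr rfl fun m _ => ?_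
    rw [map_mul, map_pow, aeval_X, hR, Algebra.smul_def]
    rfl
  have hz' := hgood.zero hy hz
  have hm₀r : m₀ ∈ Finset.range (p.natDegree + 1) :=
    Finset.mem_range_succ_iff.mpr (Polynomial.le_natDegree_of_ne_zero hm₀)
  refine ⟨∑ m ∈ Finset.range (p.natDegree + 1), Polynomial.C
      (⟨aeval (fam c yc) (R m), hR' m _⟩ : Algebra.adjoin k (fam c yc '' G)) * Polynomial.X ^ m,
      ?_, ?_⟩
  · intro h
    have h2 := congrArg (fun q => Polynomial.coeff q m₀) h
    simp only [Polynomial.finsetSum_coeff, Polynomial.coeff_C_mul, Polynomial.coeff_X_pow,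
      Polynomial.coeff_zero, mul_ite, mul_one, mul_zero] at h2
    rw [Finset.sum_ite_eq, if_pos hm₀r] at h2
    exact hg' c yc hgood hc (congrArg Subtype.val h2)
  · rw [map_sum]
    rw [map_sum] at hz'
    rw [← hz']
    refine Finset.sum_congr rfl fun m _ => ?_
    rw [map_mul, map_mul, map_pow, map_pow, aeval_X, Polynomial.aeval_X, Polynomial.aeval_C]
    rfl

/-- A family which moves the functions `x i`, `i ∈ J`, independently can be specialized at all
points of a dense open subset over all extensions of the base field. -/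
theorem specE {x : Fin N → K} (hx : adjoin k (Set.range x) = ⊤) (φ : K →ₐ[k] Rt n K)
    (J : Set (Fin N)) (hJ : AlgebraicIndependent K (fun i : J => φ (x i))) :
    ∃ g : MvPolynomial (Fin N) k, aeval x g ≠ 0 ∧
      ∀ {E : Type u} [Field E] [Algebra k E] (c : Fin N → E),
        (∀ Q : MvPolynomial (Fin N) k, aeval x Q = 0 → aeval c Q = 0) → aeval c g ≠ 0 →
        ∃ yc : Fin N → Rt n E,
          (∀ w : MvPolynomial (Fin N ⊕ (Fin N ⊕ Fin n)) k, aeval (fam x (φ ∘ x)) w = 0 →
            aeval (fam c yc) w = 0) ∧ AlgebraicIndependent E (fun i : J => yc i) := by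
  classical
  obtain ⟨P, D, hD, hP⟩ := exists_common (n := n) hx N (fun i => φ (x i))
  obtain ⟨y, hy⟩ : ∃ y : Fin N → Rt n K, y = φ ∘ x := ⟨_, rfl⟩
  have hyP : ∀ i, y i * ΦR x n D = ΦR x n (P i) := by rw [hy]; exact hP
  -- a transcendence basis of `Rt n K` over `K`
  obtain ⟨v, hv⟩ : ∃ v : Fin N ⊕ Fin n → Rt n K, v = Sum.elim y
    (fun j => algebraMap (MvPolynomial (Fin n) K) (Rt n K) (X j)) := ⟨_, rfl⟩
  have hJv : AlgebraicIndepOn K v (Sum.inl '' J) := by
    have h2 : AlgebraicIndependent K (fun i : (Sum.inl '' J : Set (Fin N ⊕ Fin n)) => v i) := by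
      have h3 := hJ.comp (Equiv.Set.image _ J (Sum.inl_injective (β := Fin n))).symm
        (Equiv.injective _)
      have h5 : ((fun i : J => φ (x i)) ∘ (Equiv.Set.image _ J
          (Sum.inl_injective (β := Fin n))).symm) =
          (fun i : (Sum.inl '' J : Set (Fin N ⊕ Fin n)) => v i) := by
        funext i
        obtain ⟨i, j, hj, rfl⟩ := i
        have h4 : (Equiv.Set.image _ J (Sum.inl_injective (β := Fin n))).symm
            ⟨Sum.inl j, j, hj, rfl⟩ = ⟨j, hj⟩ := by
          rw [Equiv.symm_apply_eq]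
          rfl
        simp only [Function.comp_apply, h4]
        rw [hv, hy]
        rfl
      rw [← h5]
      exact h3
    exact h2
  obtain ⟨S, hJS, hS, hSa⟩ := maxIndep v _ hJv
  have hcard : Cardinal.mk S ≤ n := by
    have h1 := hS.lift_cardinalMk_le_trdeg
    rw [trdeg_rt] at h1
    simpa using h1
  obtain ⟨G, hG⟩ : ∃ G : Set (Fin N ⊕ (Fin N ⊕ Fin n)), G = Set.range Sum.inl ∪ Sum.inr '' S :=
    ⟨_, rfl⟩
  -- the parameters are algebraic over the family indexed by `G`
  have hTa : ∀ l : Fin N ⊕ Fin n,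
      IsAlgebraic (Algebra.adjoin k (fam x y '' G)) (fam x y (Sum.inr l)) := by
    intro l
    have h1 := hSa l
    rw [← isAlgebraic_adjoin_iff] at h1 ⊢
    have h2 : (adjoin K (v '' S)).restrictScalars k ≤ adjoin k (fam x y '' G) := by
      intro z hz
      rw [mem_restrictScalars] at hz
      have h3 : ∀ a : K, algebraMap K (Rt n K) a ∈ adjoin k (fam x y '' G) := by
        intro a
        have ha : a ∈ adjoin k (Set.range x) := by rw [hx]; trivial
        rw [mem_adjoin_range_iff] at ha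
        obtain ⟨p, q, rfl⟩ := ha
        rw [map_div₀]
        have h5 : ∀ p : MvPolynomial (Fin N) k, algebraMap K (Rt n K) (aeval x p) ∈
            adjoin k (fam x y '' G) := by
          intro p
          rw [← MvPolynomial.aeval_algebraMap_apply]
          refine aeval_mem' _ _ (fun i => ?_) p
          apply IntermediateField.subset_adjoin
          refine ⟨Sum.inl i, ?_, rfl⟩
          rw [hG]
          exact Or.inl ⟨i, rfl⟩
        exact div_mem (h5 p) (h5 q)
      have h4 : v '' S = Set.range (fun i : S => v i) := by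
        ext; simp
      rw [h4, mem_adjoin_range_iff] at hz
      obtain ⟨p, q, rfl⟩ := hz
      have h5 : ∀ p : MvPolynomial S K, aeval (fun i : S => v i) p ∈
          adjoin k (fam x y '' G) := by
        intro p
        rw [aeval_def, eval₂_eq]
        refine sum_mem fun d _ => mul_mem (h3 _) (prod_mem fun i _ => pow_mem ?_ _)
        apply IntermediateField.subset_adjoin
        refine ⟨Sum.inr i, ?_, ?_⟩
        · rw [hG]
          exact Or.inr ⟨i, i.2, rfl⟩
        · rw [hv]
          rfl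
      exact div_mem (h5 p) (h5 q)
    obtain ⟨p, hp0, hp⟩ := h1
    refine ⟨p.map (IntermediateField.inclusion h2 : _ →ₐ[k] _).toRingHom,
      (Polynomial.map_ne_zero_iff (RingHom.injective _)).mpr hp0, ?_⟩
    rw [Polynomial.aeval_def, Polynomial.eval₂_map]
    have h6 : fam x y (Sum.inr l) = v l := by rw [hv]; rfl
    rw [h6]
    exact hp
  -- bad loci
  have hgl : ∀ l : Fin N ⊕ Fin n, ∃ g : MvPolynomial (Fin N) k, aeval x g ≠ 0 ∧
      ∀ {E : Type u} [Field E] [Algebra k E] (c : Fin N → E) (yc : Fin N → Rt n E),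
        GoodE x P D c yc → aeval c g ≠ 0 →
        IsAlgebraic (Algebra.adjoin k (fam c yc '' G)) (fam c yc (Sum.inr l)) :=
    fun l => algSpecE hD hyP G (Sum.inr l) (hTa l)
  choose g hg hg' using hgl
  obtain ⟨mD, hmD⟩ := evE_ne_aux hD
  refine ⟨coeff mD D * ∏ l, g l, by
    rw [map_mul, map_prod]
    exact mul_ne_zero hmD (Finset.prod_ne_zero_iff.mpr fun l _ => hg l), ?_⟩
  intro E _ _ c hc hcG
  rw [map_mul, map_prod] at hcG
  have hcD : evE c n D ≠ 0 := evE_ne (left_ne_zero_of_mul hcG)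
  have hcg : ∀ l, aeval c (g l) ≠ 0 := fun l =>
    Finset.prod_ne_zero_iff.mp (right_ne_zero_of_mul hcG) l (Finset.mem_univ l)
  obtain ⟨yc, hyc⟩ : ∃ yc : Fin N → Rt n E, yc = fun i => evE c n (P i) / evE c n D := ⟨_, rfl⟩
  have hgood : GoodE x P D c yc := ⟨hc, hcD, fun i => by
    rw [hyc]
    exact div_mul_cancel₀ _ hcD⟩
  obtain ⟨vc, hvc⟩ : ∃ vc : Fin N ⊕ Fin n → Rt n E, vc = Sum.elim yc
    (fun j => algebraMap (MvPolynomial (Fin n) E) (Rt n E) (X j)) := ⟨_, rfl⟩
  have hTc : ∀ l, IsAlgebraic (Algebra.adjoin E (vc '' S)) (vc l) := by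
    intro l
    have h1 := hg' l c yc hgood (hcg l)
    have h2 : fam c yc (Sum.inr l) = vc l := by rw [hvc]; rfl
    rw [h2] at h1
    obtain ⟨p, hp0, hp⟩ := h1
    have hle : Algebra.adjoin k (fam c yc '' G) ≤
        (Algebra.adjoin E (vc '' S)).restrictScalars k := by
      rw [Algebra.adjoin_le_iff]
      rintro z ⟨i, hi, rfl⟩
      rw [hG] at hi
      rcases hi with ⟨i, rfl⟩ | ⟨i, hi, rfl⟩
      · exact Subalgebra.algebraMap_mem (Algebra.adjoin E (vc '' S)) (c i)
      · apply Algebra.subset_adjoin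
        refine ⟨i, hi, ?_⟩
        rw [hvc]
        rfl
    refine ⟨p.map (Subalgebra.inclusion hle : _ →ₐ[k] _).toRingHom, ?_, ?_⟩
    · exact (Polynomial.map_ne_zero_iff (f := (Subalgebra.inclusion hle : _ →ₐ[k] _).toRingHom)
        (Subalgebra.inclusion_injective hle)).mpr hp0
    · rw [Polynomial.aeval_def, Polynomial.eval₂_map]
      exact hp
  have himg : vc '' S = Set.range (fun i : S => vc i) := by
    ext; simp
  have hind : AlgebraicIndependent E (fun i : S => vc i) := by
    have h1 : Algebra.IsAlgebraic (Algebra.adjoin E (Set.range (fun i : S => vc i))) (Rt n E) := by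
      rw [← himg]
      refine isAlg_of_adjoin _ _ (adjoin_X E n) fun j => ?_
      have h2 := hTc (Sum.inr j)
      rw [hvc] at h2 ⊢
      exact h2
    exact (Algebra.IsAlgebraic.isTranscendenceBasis_of_lift_le_trdeg_of_finite E
      (fun i : S => vc i) (by
        rw [trdeg_rt]
        simpa using hcard)).1
  have hindJ : AlgebraicIndependent E (fun i : J => yc i) := by
    have h1 := hind.comp (fun i : J => (⟨Sum.inl i, hJS ⟨i, i.2, rfl⟩⟩ : S)) (by
      intro a b hab
      have := congrArg Subtype.val hab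
      exact Subtype.ext (Sum.inl_injective this))
    have h2 : ((fun i : S => vc i) ∘ fun i : J => (⟨Sum.inl i, hJS ⟨i, i.2, rfl⟩⟩ : S)) =
        (fun i : J => yc i) := by
      funext i
      rw [hvc]
      rfl
    rw [← h2]
    exact h1
  refine ⟨yc, fun w hw => ?_, hindJ⟩
  rw [← hy] at hw
  exact hgood.zero hyP hw

end Family

end Pool.Agent.R867.D
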