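import Pool.Agent.R867.D.CoreImm
import Pool.Agent.R867.D.SpecE

/-! Independence over `K` from independence over the immovable elements. -/

set_option autoImplicit false

namespace Pool.Agent.R867.D

open MvPolynomial IntermediateField Pool.Agent.R867.Mov

universe u v

variable {k : Type u} {K : Type u} [Field k] [Field K] [Algebra k K]

theorem imm_PT {Ω : Type u} [Field Ω] [Algebra K Ω] [Algebra k Ω] [IsScalarTower k K Ω]
    (hΩ : PT K Ω) (ψ : K →ₐ[k] Ω) {a : K} (ha : Imm k a) : ψ a ∈ Set.range (algebraMap K Ω) := by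
  obtain ⟨n, ⟨e⟩⟩ := hΩ.equiv
  obtain ⟨b, hb⟩ := ha n ((e.restrictScalars k).toAlgHom.comp ψ)
  refine ⟨b, e.injective ?_⟩
  rw [e.commutes, hb]
  rfl

theorem imm_image {n : ℕ} (φ : K →ₐ[k] Rt n K) {y y' : K} (hy : Imm k y)
    (h : algebraMap K (Rt n K) y' = φ y) : Imm k y' := by
  intro p σ
  obtain ⟨b, hb⟩ := imm_PT (PT_comb K n p) (comb σ φ) hy
  refine ⟨b, (algebraMap (Rt p K) (Rt n (Rt p K))).injective ?_⟩
  rw [← IsScalarTower.algebraMap_apply, hb, comb_apply, ← h, mapRt_C]
  rfl

theorem not_cl_empty {y : K} (hy : Transcendental k y) : y ∉ cl k (∅ : Set K) := by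
  intro h
  apply hy
  rw [mem_cl, Algebra.adjoin_empty] at h
  obtain ⟨p, hp0, hp⟩ := h
  have hb : ∀ c : (⊥ : Subalgebra k K), ∃ z : k, algebraMap k K z = c := fun c =>
    Algebra.mem_bot.mp c.2
  choose g hg using hb
  have hinj := (algebraMap k K).injective
  let ρ : (⊥ : Subalgebra k K) →+* k :=
    { toFun := g
      map_one' := hinj (by rw [hg, map_one]; rfl)
      map_zero' := hinj (by rw [hg, map_zero]; rfl)
      map_add' := fun a b => hinj (by rw [hg, map_add, hg, hg]; rfl)
      map_mul' := fun a b => hinj (by rw [hg, map_mul, hg, hg]; rfl) }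
  have hρ : Function.Injective ρ := by
    intro a b hab
    apply Subtype.ext
    rw [← hg, ← hg]
    exact congrArg _ hab
  refine ⟨p.map ρ, (Polynomial.map_ne_zero_iff hρ).mpr hp0, ?_⟩
  rw [Polynomial.aeval_def, Polynomial.eval₂_map]
  have h4 : (algebraMap k K).comp ρ = algebraMap (⊥ : Subalgebra k K) K := by
    ext c
    exact hg c
  rw [h4]
  exact hp

/-- If all the immovable elements are algebraic over one of them, `y`, then the elements which are
independent over `y` are moved independently. -/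
theorem indK {n : ℕ} {φ : K →ₐ[k] Rt n K}
    (hφ : ∀ (m : ℕ) (w : Fin m → K), ¬ LinearIndependent K (φ ∘ w) →
      ∃ a : Fin m → K, (∃ j, a j ≠ 0) ∧ (∀ i, Imm k (a i)) ∧ ∑ i, a i • φ (w i) = 0)
    {y y' : K} (hy : Imm k y) (hyt : Transcendental k y) (hall : ∀ b, Imm k b → b ∈ cl k {y})
    (hy' : algebraMap K (Rt n K) y' = φ y) {ι : Type} {u : ι → K}
    (hu : AlgebraicIndependent k (fun o : Option ι => o.elim y u)) :
    AlgebraicIndependent K (φ ∘ u) := by
  classical
  have hy'I := imm_image φ hy hy'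
  have hy't : Transcendental k y' := by
    intro h
    apply hyt
    have h1 : IsAlgebraic k (algebraMap K (Rt n K) y') :=
      h.algebraMap
    rw [hy'] at h1
    exact (isAlgebraic_algHom_iff φ φ.injective).mp h1
  have hex : y ∈ cl k {y'} := by
    have h1 := hall _ hy'I
    rw [← LawfulSingleton.insert_empty_eq (β := Set K) y] at h1
    have h2 := cl_exch h1 (not_cl_empty hy't)
    rwa [LawfulSingleton.insert_empty_eq] at h2
  have hall' : ∀ b, Imm k b → b ∈ cl k {y'} := fun b hb => cl_sub (by
    rintro _ rfl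
    exact hex) (hall b hb)
  -- independence over `k (y')`
  have h1 : AlgebraicIndependent k (φ ∘ fun o : Option ι => o.elim y u) :=
    (φ.algebraicIndependent_iff φ.injective).mpr hu
  obtain ⟨F₁, hF₁⟩ : ∃ F₁ : IntermediateField k (Rt n K),
    F₁ = adjoin k (Set.range (fun _ : Unit => algebraMap K (Rt n K) y')) := ⟨_, rfl⟩
  have h2 : AlgebraicIndependent F₁ (φ ∘ u) := by
    have h3 := h1.comp (Sum.elim some (fun _ : Unit => (none : Option ι))) (by
      rintro (a | a) (b | b) hab
      · rw [Sum.elim_inl, Sum.elim_inl] at hab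
        rw [Option.some_injective _ hab]
      · exact absurd hab (by simp)
      · exact absurd hab (by simp)
      · rfl)
    have h4 : ((φ ∘ fun o : Option ι => o.elim y u) ∘
        Sum.elim some (fun _ : Unit => (none : Option ι))) =
        Sum.elim (φ ∘ u) (fun _ : Unit => algebraMap K (Rt n K) y') := by
      funext o
      rcases o with a | a
      · rfl
      · exact hy'.symm
    rw [h4] at h3
    rw [hF₁, algebraicIndependent_adjoin_iff]
    exact (AlgebraicIndependent.sumElim_iff.mp h3).2
  have h3 := h2.algebraicClosure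
  have hmemF : ∀ b, Imm k b → algebraMap K (Rt n K) b ∈ algebraicClosure F₁ (Rt n K) := by
    intro b hb
    rw [mem_algebraicClosure_iff]
    have h4 := cl_map (IsScalarTower.toAlgHom k K (Rt n K)) (hall' b hb)
    rw [mem_cl_iff] at h4
    rw [hF₁]
    have h5 : Set.range (fun _ : Unit => algebraMap K (Rt n K) y') =
        (IsScalarTower.toAlgHom k K (Rt n K)) '' {y'} := by
      ext z
      simp
    rw [h5]
    exact h4
  -- a relation over `K`
  rw [AlgebraicIndependent, injective_iff_map_eq_zero]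
  intro p hp
  by_contra hp0
  obtain ⟨mono, hmono⟩ : ∃ mono : (ι →₀ ℕ) → K, mono = fun m => aeval u (monomial m (1 : k)) :=
    ⟨_, rfl⟩
  have hmφ : ∀ m : ι →₀ ℕ, ∀ {R : Type u} [CommRing R] [Algebra R (Rt n K)],
      φ (mono m) = aeval (φ ∘ u) (monomial m (1 : R)) := by
    intro m R _ _
    rw [hmono]
    change φ (aeval u (monomial m (1 : k))) = _
    rw [aeval_monomial, aeval_monomial, map_one, map_one, one_mul, one_mul, Finsupp.prod,
      Finsupp.prod, map_prod]
    refine Finset.prod_congr rfl fun i _ => ?_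
    rw [map_pow]
    rfl
  obtain ⟨e⟩ : Nonempty (p.support ≃ Fin p.support.card) := ⟨p.support.equivFin⟩
  have hdep : ¬ LinearIndependent K (φ ∘ fun i : Fin p.support.card =>
      mono (e.symm i : ι →₀ ℕ)) := by
    intro hlin
    rw [Fintype.linearIndependent_iff] at hlin
    have h4 := hlin (fun i => p.coeff (e.symm i : ι →₀ ℕ)) (by
      rw [← hp]
      conv_rhs => rw [p.as_sum]
      rw [map_sum, ← Finset.sum_coe_sort p.support, ← e.symm.sum_comp]
      refine Finset.sum_congr rfl fun i _ => ?_
      rw [Function.comp_apply, hmφ _ (R := K), ← map_smul, smul_monomial, smul_eq_mul, mul_one])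
    obtain ⟨m, hm⟩ := ne_zero_iff.mp hp0
    have h5 := h4 (e ⟨m, mem_support_iff.mpr hm⟩)
    rw [Equiv.symm_apply_apply] at h5
    exact hm h5
  obtain ⟨a, ⟨j, hj⟩, haI, ha⟩ := hφ _ _ hdep
  -- the relation over the algebraic closure of `k (y')`
  obtain ⟨q, hq⟩ : ∃ q : MvPolynomial ι (algebraicClosure F₁ (Rt n K)),
    q = ∑ i, monomial (e.symm i : ι →₀ ℕ)
      (⟨algebraMap K (Rt n K) (a i), hmemF _ (haI i)⟩ : algebraicClosure F₁ (Rt n K)) := ⟨_, rfl⟩
  have hq0 : aeval (φ ∘ u) q = 0 := by
    rw [hq, map_sum, ← ha]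
    refine Finset.sum_congr rfl fun i _ => ?_
    rw [Algebra.smul_def, hmφ _ (R := algebraicClosure F₁ (Rt n K)), aeval_monomial, aeval_monomial,
      map_one, one_mul]
    rfl
  have hq1 : q = 0 := by
    apply h3
    rw [map_zero]
    exact hq0
  have hcoef : coeff (e.symm j : ι →₀ ℕ) q = ⟨algebraMap K (Rt n K) (a j), hmemF _ (haI j)⟩ := by
    rw [hq, coeff_sum, Finset.sum_eq_single j]
    · rw [coeff_monomial, if_pos rfl]
    · intro b _ hb
      rw [coeff_monomial, if_neg]
      intro h
      exact hb (e.symm.injective (Subtype.ext h))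
    · intro h
      exact absurd (Finset.mem_univ j) h
  rw [hq1, coeff_zero] at hcoef
  apply hj
  have h6 := congrArg Subtype.val hcoef
  apply (algebraMap K (Rt n K)).injective
  rw [map_zero]
  exact h6.symm

end Pool.Agent.R867.D
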