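import Pool.Agent.R867.D.RC
import Pool.Agent.R867.J.Tors4

/-! Rationally connected varieties with at most one independent immovable function. -/

set_option autoImplicit false

namespace Pool.Agent.R867.D

open MvPolynomial IntermediateField Pool.Agent.R867.Mov Pool.Agent.R867.J

universe u v

section

variable {k : Type u} {K : Type u} [Field k] [Field K] [Algebra k K] {N : ℕ}

theorem trans_of_not_mem [IsAlgClosed k] {y : K} (hy : y ∉ Set.range (algebraMap k K)) :
    Transcendental k y := fun h => hy (minpoly.mem_range_of_degree_eq_one k _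
      (IsAlgClosed.degree_eq_one_of_irreducible k (minpoly.irreducible h.isIntegral)))

/-- two elements are independent -/
theorem pair_indep {a b : K} (ha : Transcendental k a) (hb : b ∉ cl k {a}) :
    AlgebraicIndependent k ![a, b] := by
  have h1 : AlgebraicIndependent k (fun _ : Unit => a) := by
    rw [algebraicIndependent_unique_type_iff]
    exact ha
  have h2 : Transcendental (Algebra.adjoin k (Set.range fun _ : Unit => a)) b := by
    rw [Set.range_const]
    exact hb
  have h3 := (h1.option_iff_transcendental b).mpr h2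
  have h4 := h3.comp (![some (), none] : Fin 2 → Option Unit) (by
    intro i j hij
    fin_cases i <;> fin_cases j <;> simp_all)
  have h5 : ((fun o : Option Unit => o.elim b fun _ : Unit => a) ∘
      (![some (), none] : Fin 2 → Option Unit)) = ![a, b] := by
    funext i
    fin_cases i <;> rfl
  rwa [h5] at h4

/-- A variety over an algebraically closed field is unirational if it has enough points and if any
two immovable functions are dependent. -/
theorem main_rc [IsAlgClosed k] {x : Fin N → K} (hx : adjoin k (Set.range x) = ⊤)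
    (hC : CurvePts k x)
    (h2 : ∀ a b : K, Imm k a → Imm k b → ¬ AlgebraicIndependent k ![a, b]) :
    ∃ n, Nonempty (K →ₐ[k] Rt n k) := by
  by_cases h0 : ∀ a : K, Imm k a → a ∈ Set.range (algebraMap k K)
  · refine unirational_of_dense hx (densePts_of_isAlgClosed x) fun a ha => ?_
    by_contra hmov
    apply ha
    apply h0
    intro n σ
    by_contra h3
    exact hmov ⟨n, σ, h3⟩
  · push Not at h0
    obtain ⟨y, hy, hyk⟩ := h0
    have hyt := trans_of_not_mem hyk
    refine rel_aux hx hC hy hyt fun b hb => ?_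
    by_contra hbc
    exact h2 y b hy hb (pair_indep hyt hbc)

/-- the three ways to exclude a field -/
def Excluded (M : IntermediateField k K) : Prop :=
  (∃ a ∈ M, ∃ (n : ℕ) (σ : K →ₐ[k] Rt n K), σ a ∉ Set.range (algebraMap K (Rt n K))) ∨
  (∃ (L : IntermediateField k K) (t w : K) (Q : Polynomial L), Fib L t w Q ∧ ¬ M ≤ L ∧
    (Q.natDegree ≤ 2 ∨ algebraMap L K (modulus Q) ∉ M)) ∨
  (∃ (L : IntermediateField k K) (a b c : L), IsTorsor L a b c ∧
    (∀ z : K, IsAlgebraic L z → z ∈ L) ∧ ¬ M ≤ L ∧
    algebraMap L K (modulus (Polynomial.X ^ 3 + Polynomial.C a * Polynomial.X ^ 2 +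
      Polynomial.C b * Polynomial.X + Polynomial.C c)) ∉ M)

theorem not_excluded [CharZero K] {M : IntermediateField k K} (hM : ImmHull M) :
    ¬ Excluded M := by
  rintro (⟨a, ha, n, σ, hσ⟩ | ⟨L, t, w, Q, hF, hle, hdeg⟩ | ⟨L, a, b, c, hT, hcl, hle, hj⟩)
  · exact hσ (hM.not_movable ha σ)
  · rcases Nat.lt_or_ge Q.natDegree 3 with h2 | h3
    · exact hle (hF.genus_zero (by omega) hM)
    · rcases hdeg with h2 | hj
      · omega
      · exact hj (hF.genus_one h3 hM hle)
  · exact hj (torsor_modulus hT hcl hM hle)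

theorem criterion3 [IsAlgClosed k] [CharZero k] {x : Fin N → K}
    (hx : adjoin k (Set.range x) = ⊤) (hC : CurvePts k x)
    (hyp : ∀ M : IntermediateField k K, (∃ a ∈ M, ∃ b ∈ M, AlgebraicIndependent k ![a, b]) →
      (∀ z : K, IsAlgebraic M z → z ∈ M) → Excluded M) :
    ∃ n, Nonempty (K →ₐ[k] Rt n k) := by
  have hcK : CharZero K := charZero_of_injective_algebraMap (algebraMap k K).injective
  obtain ⟨M, hM⟩ := exists_immHull (k := k) (K := K)
  refine main_rc hx hC fun a b ha hb hab => ?_
  have hmem : ∀ a, Imm k a → a ∈ M := by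
    intro a ha
    have h1 : a ∈ (M : Set K) := by
      rw [hM.eq]
      exact subset_cl _ ha
    exact h1
  refine not_excluded hM (hyp M ⟨a, hmem a ha, b, hmem b hb, hab⟩ fun z hz => ?_)
  apply hM.cl
  rw [mem_cl_iff]
  refine isAlg_mono Subtype.val_injective Subtype.val_injective (fun r => ?_) hz
  exact ⟨⟨r, IntermediateField.subset_adjoin _ _ r.2⟩, rfl⟩

theorem criterion4 [IsAlgClosed k] [CharZero k] {x : Fin N → K}
    (hx : adjoin k (Set.range x) = ⊤) (hC : CurvePts k x)
    (hyp : ∀ M : IntermediateField k K, (∃ a ∈ M, ∃ b ∈ M, AlgebraicIndependent k ![a, b]) →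
      (∀ z : K, IsAlgebraic M z → z ∈ M) → Excluded M ∨ ∃ (g : K →ₐ[k] K) (a : K), a ∈ M ∧ g a ∉ M) :
    ∃ n, Nonempty (K →ₐ[k] Rt n k) := by
  have hcK : CharZero K := charZero_of_injective_algebraMap (algebraMap k K).injective
  obtain ⟨M, hM⟩ := exists_immHull (k := k) (K := K)
  refine main_rc hx hC fun a b ha hb hab => ?_
  have hmem : ∀ a, Imm k a → a ∈ M := by
    intro a ha
    have h1 : a ∈ (M : Set K) := by
      rw [hM.eq]
      exact subset_cl _ ha
    exact h1
  rcases hyp M ⟨a, hmem a ha, b, hmem b hb, hab⟩ (fun z hz => by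
    apply hM.cl
    rw [mem_cl_iff]
    refine isAlg_mono Subtype.val_injective Subtype.val_injective (fun r => ?_) hz
    exact ⟨⟨r, IntermediateField.subset_adjoin _ _ r.2⟩, rfl⟩) with h | ⟨g, c, hc, hgc⟩
  · exact not_excluded hM h
  · exact hgc (hM.endo g c hc)

theorem torsor_trans {L : IntermediateField k K} {a b c : L} (H : IsTorsor L a b c) :
    ∃ t : K, Transcendental L t := by
  obtain ⟨K', _, _, _, hfin, hgal, X, Y, H⟩ := H
  let i : Algebra k K' := ((algebraMap K K').comp (algebraMap k K)).toAlgebra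
  have ht : IsScalarTower k K K' := IsScalarTower.of_algebraMap_eq fun _ => rfl
  exact exists_trans H

/-- in transcendence degree three -/
theorem eq_of_le (h3 : Algebra.trdeg k K = 3) {M L : IntermediateField k K}
    (hM : ∃ a ∈ M, ∃ b ∈ M, AlgebraicIndependent k ![a, b])
    (hMc : ∀ z : K, IsAlgebraic M z → z ∈ M) (hle : M ≤ L) {t : K} (ht : Transcendental L t) :
    L ≤ M := by
  intro z hz
  by_contra hzM
  obtain ⟨a, ha, b, hb, hab⟩ := hM
  have hr1 : Algebra.adjoin k (Set.range ![a, b]) ≤ M.toSubalgebra := by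
    rw [Algebra.adjoin_le_iff]
    rintro _ ⟨i, rfl⟩
    fin_cases i
    · exact ha
    · exact hb
  have h1 : Transcendental (Algebra.adjoin k (Set.range ![a, b])) z := by
    intro h
    apply hzM
    apply hMc
    exact isAlg_mono Subtype.val_injective Subtype.val_injective
      (fun r => ⟨⟨r, hr1 r.2⟩, rfl⟩) h
  have h2 := (hab.option_iff_transcendental z).mpr h1
  have hr2 : Algebra.adjoin k (Set.range fun o : Option (Fin 2) => o.elim z ![a, b]) ≤
      L.toSubalgebra := by
    rw [Algebra.adjoin_le_iff]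
    rintro _ ⟨_ | i, rfl⟩
    · exact hz
    · fin_cases i
      · exact hle ha
      · exact hle hb
  have h3' : Transcendental (Algebra.adjoin k (Set.range fun o : Option (Fin 2) =>
      o.elim z ![a, b])) t := by
    intro h
    apply ht
    exact isAlg_mono Subtype.val_injective Subtype.val_injective
      (fun r => ⟨⟨r, hr2 r.2⟩, rfl⟩) h
  have h4 := (h2.option_iff_transcendental t).mpr h3'
  have h5 := h4.lift_cardinalMk_le_trdeg
  rw [h3] at h5
  have h6 : Cardinal.mk (Option (Option (Fin 2))) = 4 := by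
    rw [Cardinal.mk_fintype]
    rfl
  rw [h6] at h5
  have h7 : ((4 : ℕ) : Cardinal.{u}) ≤ ((3 : ℕ) : Cardinal.{u}) := by simpa using h5
  have h8 : (4 : ℕ) ≤ 3 := by exact_mod_cast h7
  omega

end

end Pool.Agent.R867.D
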