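import Pool.Agent.R867.D.Emb

/-! Rationally connected varieties. -/

set_option autoImplicit false

namespace Pool.Agent.R867.D

open MvPolynomial IntermediateField Pool.Agent.R867.Mov

universe u v

section

variable {k : Type u} {K : Type u} [Field k] [Field K] [Algebra k K] {N : ℕ}

/-- `p` is a point of the affine variety with the generic point `x` -/
def IsPoint (x : Fin N → K) (p : Fin N → k) : Prop :=
  ∀ Q : MvPolynomial (Fin N) k, aeval x Q = 0 → eval p Q = 0

/-- there is a rational curve on the variety with the generic point `x` which passes through the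
points `p` and `q`: rational functions `a i / b` of one variable which satisfy the equations of the
variety and have the values `p` at `0` and `q` at `1` -/
def Joined (x : Fin N → K) (p q : Fin N → k) : Prop :=
  ∃ (a : Fin N → Polynomial k) (b : Polynomial k), b.eval 0 ≠ 0 ∧ b.eval 1 ≠ 0 ∧
    (∀ i, (a i).eval 0 = p i * b.eval 0) ∧ (∀ i, (a i).eval 1 = q i * b.eval 1) ∧
    ∀ Q : MvPolynomial (Fin N) k, aeval x Q = 0 →
      aeval (fun i => algebraMap (Polynomial k) (RatFunc k) (a i) /
        algebraMap (Polynomial k) (RatFunc k) b) Q = 0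

/-- two general points of the variety with the generic point `x` are on a rational curve -/
def RationallyConnected (k : Type u) {K : Type u} [Field k] [Field K] [Algebra k K] {N : ℕ}
    (x : Fin N → K) : Prop :=
  ∃ H : MvPolynomial (Fin N ⊕ Fin N) k,
    (∃ p q : Fin N → k, IsPoint x p ∧ IsPoint x q ∧ eval (Sum.elim p q) H ≠ 0) ∧
    ∀ p q : Fin N → k, IsPoint x p → IsPoint x q → eval (Sum.elim p q) H ≠ 0 → Joined x p q

theorem PT_ratFunc (k : Type u) [Field k] : PT k (RatFunc k) := by
  refine ⟨1, fun _ => RatFunc.X, ?_, ?_⟩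
  · rw [algebraicIndependent_unique_type_iff]
    intro h
    have h1 := Polynomial.transcendental_X k
    apply h1
    have h2 : algebraMap (Polynomial k) (RatFunc k) Polynomial.X = RatFunc.X := RatFunc.algebraMap_X
    rw [← h2] at h
    exact (isAlgebraic_algebraMap_iff (RatFunc.algebraMap_injective k)).mp h
  · rw [Set.range_const]
    exact RatFunc.adjoin_X

theorem clearP {a : Fin N → Polynomial k} {b : Polynomial k} (hb : b ≠ 0)
    (G : MvPolynomial (Fin N) k) : ∃ (g : Polynomial k) (e : ℕ),
      aeval (fun i => algebraMap (Polynomial k) (RatFunc k) (a i) /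
        algebraMap (Polynomial k) (RatFunc k) b) G * algebraMap (Polynomial k) (RatFunc k) b ^ e =
        algebraMap (Polynomial k) (RatFunc k) g ∧
      ∀ (s : k) (p : Fin N → k), (∀ i, (a i).eval s = p i * b.eval s) →
        eval p G * b.eval s ^ e = g.eval s := by
  have hb' : algebraMap (Polynomial k) (RatFunc k) b ≠ 0 := by
    rw [Ne, map_eq_zero_iff _ (RatFunc.algebraMap_injective k)]
    exact hb
  induction G using MvPolynomial.induction_on with
  | C c =>
    refine ⟨Polynomial.C c, 0, ?_, fun s p _ => ?_⟩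
    · rw [aeval_C, pow_zero, mul_one, IsScalarTower.algebraMap_apply k (Polynomial k) (RatFunc k)]
      rfl
    · rw [eval_C, pow_zero, mul_one, Polynomial.eval_C]
  | add p q hp hq =>
    obtain ⟨Q₁, e₁, h₁, h₁'⟩ := hp
    obtain ⟨Q₂, e₂, h₂, h₂'⟩ := hq
    refine ⟨Q₁ * b ^ e₂ + Q₂ * b ^ e₁, e₁ + e₂, ?_, fun s p hs => ?_⟩
    · rw [map_add, map_add, map_mul, map_mul, map_pow, map_pow, ← h₁, ← h₂]
      ring
    · rw [map_add, Polynomial.eval_add, Polynomial.eval_mul, Polynomial.eval_mul,
        Polynomial.eval_pow, Polynomial.eval_pow, ← h₁' s p hs, ← h₂' s p hs]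
      ring
  | mul_X p i hp =>
    obtain ⟨Q, e, h, h'⟩ := hp
    refine ⟨Q * a i, e + 1, ?_, fun s p hs => ?_⟩
    · rw [map_mul, map_mul, ← h, aeval_X]
      field_simp
      ring
    · rw [map_mul, eval_X, Polynomial.eval_mul, ← h' s p hs, hs]
      ring

theorem eval_sub {κ : Type*} (f : κ → MvPolynomial (Fin N) k) (q : Fin N → k) (g : κ → k)
    (h : ∀ i, eval q (f i) = g i) (H : MvPolynomial κ k) : eval q (aeval f H) = eval g H := by
  induction H using MvPolynomial.induction_on with
  | C c => rw [aeval_C, eval_C, algebraMap_eq, eval_C]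
  | add p r hp hr => rw [map_add, map_add, map_add, hp, hr]
  | mul_X p i hp => rw [map_mul, map_mul, map_mul, hp, aeval_X, eval_X, h]

theorem curvePts_of_rc [IsAlgClosed k] {x : Fin N → K} (h : RationallyConnected k x) :
    CurvePts k x := by
  intro G A B hG hB htr
  obtain ⟨H, ⟨p₀, q₀, hp₀, hq₀, hH⟩, hJ⟩ := h
  have hd : DensePts k x := densePts_of_isAlgClosed x
  -- the second point
  obtain ⟨H₁, hH₁⟩ : ∃ H₁ : MvPolynomial (Fin N) k, ∀ q : Fin N → k,
      eval q H₁ = eval (Sum.elim p₀ q) H := by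
    refine ⟨aeval (Sum.elim (fun i => C (p₀ i)) X) H, fun q => eval_sub _ _ _ ?_ _⟩
    rintro (i | i)
    · exact eval_C _
    · exact eval_X _
  have hH₁x : aeval x H₁ ≠ 0 := by
    intro h0
    apply hH
    rw [← hH₁]
    exact hq₀ _ h0
  obtain ⟨q, hq, hqG⟩ := hd (H₁ * B) (by rw [map_mul]; exact mul_ne_zero hH₁x hB)
  rw [map_mul] at hqG
  have hqB : eval q B ≠ 0 := right_ne_zero_of_mul hqG
  have hqH : eval (Sum.elim p₀ q) H ≠ 0 := by
    rw [← hH₁]
    exact left_ne_zero_of_mul hqG
  -- the first point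
  obtain ⟨H₂, hH₂⟩ : ∃ H₂ : MvPolynomial (Fin N) k, ∀ p : Fin N → k,
      eval p H₂ = eval (Sum.elim p q) H := by
    refine ⟨aeval (Sum.elim X (fun i => C (q i))) H, fun p => eval_sub _ _ _ ?_ _⟩
    rintro (i | i)
    · exact eval_X _
    · exact eval_C _
  have hH₂x : aeval x H₂ ≠ 0 := by
    intro h0
    apply hqH
    rw [← hH₂]
    exact hp₀ _ h0
  have hABx : aeval x (A * C (eval q B) - C (eval q A) * B) ≠ 0 := by
    intro h0
    apply htr
    rw [map_sub, map_mul, map_mul, aeval_C, aeval_C] at h0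
    have h1 : aeval x A / aeval x B = algebraMap k K (eval q A / eval q B) := by
      rw [map_div₀, div_eq_div_iff hB (by rwa [Ne, map_eq_zero])]
      linear_combination h0
    rw [h1]
    exact isAlgebraic_algebraMap _
  obtain ⟨p, hp, hpG⟩ := hd (H₂ * (G * (B * (A * C (eval q B) - C (eval q A) * B)))) (by
    rw [map_mul, map_mul, map_mul]
    exact mul_ne_zero hH₂x (mul_ne_zero hG (mul_ne_zero hB hABx)))
  rw [map_mul, map_mul, map_mul] at hpG
  have hpH : eval (Sum.elim p q) H ≠ 0 := by
    rw [← hH₂]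
    exact left_ne_zero_of_mul hpG
  have hpG' : eval p G ≠ 0 := left_ne_zero_of_mul (right_ne_zero_of_mul hpG)
  have hpB : eval p B ≠ 0 :=
    left_ne_zero_of_mul (right_ne_zero_of_mul (right_ne_zero_of_mul hpG))
  have hpA : eval p (A * C (eval q B) - C (eval q A) * B) ≠ 0 :=
    right_ne_zero_of_mul (right_ne_zero_of_mul (right_ne_zero_of_mul hpG))
  obtain ⟨a, b, hb0, hb1, ha0, ha1, hrel⟩ := hJ p q hp hq hpH
  have hb : b ≠ 0 := by
    rintro rfl
    exact hb0 (Polynomial.eval_zero)
  have hne : ∀ F : MvPolynomial (Fin N) k, eval p F ≠ 0 →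
      aeval (fun i => algebraMap (Polynomial k) (RatFunc k) (a i) /
        algebraMap (Polynomial k) (RatFunc k) b) F ≠ 0 := by
    intro F hF h0
    obtain ⟨g, e, hg, hg'⟩ := clearP (a := a) hb F
    rw [h0, zero_mul] at hg
    have h1 : g = 0 := by
      apply RatFunc.algebraMap_injective k
      rw [map_zero]
      exact hg.symm
    have h2 := hg' 0 p ha0
    rw [h1, Polynomial.eval_zero] at h2
    exact mul_ne_zero hF (pow_ne_zero _ hb0) h2
  refine ⟨RatFunc k, inferInstance, inferInstance, _, PT_ratFunc k, hrel, hne _ hpG',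
    hne _ hpB, ?_⟩
  intro halg
  obtain ⟨γ, hγ⟩ : ∃ γ : k, algebraMap k (RatFunc k) γ = _ :=
    minpoly.mem_range_of_degree_eq_one k _
      (IsAlgClosed.degree_eq_one_of_irreducible k (minpoly.irreducible halg.isIntegral))
  obtain ⟨g, e, hg, hg'⟩ := clearP (a := a) hb (A - C γ * B)
  have h0 : aeval (fun i => algebraMap (Polynomial k) (RatFunc k) (a i) /
        algebraMap (Polynomial k) (RatFunc k) b) (A - C γ * B) = 0 := by
    rw [map_sub, map_mul, aeval_C, hγ, div_mul_cancel₀ _ (hne _ hpB), sub_self]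
  rw [h0, zero_mul] at hg
  have h1 : g = 0 := by
    apply RatFunc.algebraMap_injective k
    rw [map_zero]
    exact hg.symm
  have h2 := hg' 0 p ha0
  have h3 := hg' 1 q ha1
  rw [h1, Polynomial.eval_zero, mul_eq_zero] at h2 h3
  have h4 := h2.resolve_right (pow_ne_zero _ hb0)
  have h5 := h3.resolve_right (pow_ne_zero _ hb1)
  rw [map_sub, map_mul, eval_C, sub_eq_zero] at h4 h5
  apply hpA
  rw [map_sub, map_mul, map_mul, eval_C, eval_C, h4, h5]
  ring

end

end Pool.Agent.R867.D
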